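import Pool.Agent.H15.G.R_seed8.TH698.NagT3
import Pool.Agent.H15.G.R_seed8.TH176.Nag.Main
import Pool.Agent.H15.G.R_seed8.TH603.Sur.Forms
import Pool.Agent.H15.G.R_seed8.TH793.UM.Defs

/-!
# Common points for the matching lemma (N13, first half of (M))
-/

set_option autoImplicit false

namespace Pool.Agent.TH552.BB

open MvPolynomial Module Pool.Agent.TH176.Nag Pool.Agent.TH793.UM Pool.Agent.TH603.Sur

theorem TZ_finite (d : ℕ) : (TZ d).Finite := by
  refine Set.Finite.subset (Set.finite_Icc ((0 : ℤ), (0 : ℤ)) ((d : ℤ), (d : ℤ))) ?_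
  rintro ⟨a, b⟩ ⟨h1, h2, h3⟩
  simp only at h1 h2 h3
  refine ⟨⟨h1, h2⟩, ⟨?_, ?_⟩⟩
  · show a ≤ d
    omega
  · show b ≤ d
    omega

/-- emptiness, for polynomials, at algebraically independent points -/
theorem empty_of {ι : Type} [Finite ι] {w : ι → ℕ} {d : ℕ} (h : Emp w (TZ d))
    {P : ι → Fin 2 → ℂ} (hP : AlgebraicIndependent ℚ (fun q : ι × Fin 2 => P q.1 q.2))
    (F : MvPolynomial (Fin 2) ℂ) (hF : F.totalDegree ≤ d) (hm : ∀ i, Mul F (P i) (w i)) :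
    F = 0 := by
  have hne : ∀ i j, P i j ≠ 0 := fun i j => hP.ne_zero (i, j)
  have h1 := Pool.Agent.TH15.Nag.Emp_generic (TZ_finite d) (fun m hm => ⟨hm.1, hm.2.1⟩) h
    (x := fun i => P i 0) (y := fun i => P i 1) (by
      convert hP using 1
      funext q
      obtain ⟨i, j⟩ := q
      fin_cases j <;> rfl)
  apply toL_eq_zero
  apply h1
  · refine toL_support fun s hs => ?_
    have h2 := le_totalDegree (mem_support_iff.2 hs)
    rw [Finsupp.sum_fintype _ _ (by simp), Fin.sum_univ_two] at h2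
    exact h2.trans hF
  · intro i
    refine LM_of_pt (hne i 0) (hne i 1) (P := P i) rfl rfl ?_
    rw [Pool.Agent.H932R5.mem_pt_pow_iff]
    exact hm i

theorem Mul_one_iff {F : MvPolynomial (Fin 2) ℂ} {P : Fin 2 → ℂ} :
    Mul F P 1 ↔ eval P F = 0 := by
  have h1 : coeff 0 (sh P F) = eval P F := by
    have h2 := aeval_zero' (R := ℂ) (S₁ := ℂ) (sh P F)
    have h3 : (aeval (fun _ : Fin 2 => (0 : ℂ))) (sh P F) = eval P F := by
      unfold sh
      rw [← AlgHom.comp_apply, comp_aeval]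
      have h4 : (fun i => (aeval (fun _ : Fin 2 => (0 : ℂ))) (X i + C (P i))) = P := by
        funext i
        simp
      rw [h4]
      rfl
    rw [← h3, h2]
    rfl
  unfold Pool.Agent.TH793.UM.Mul
  constructor
  · intro h
    rw [← h1]
    exact h 0 (by simp)
  · intro h s hs
    have hs0 : s = 0 := by
      have : s.degree = 0 := by omega
      exact (Finsupp.degree_eq_zero_iff s).1 this
    rw [hs0, h1, h]

/-- the polynomials with multiplicity at least `m` at `P` -/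
noncomputable def MulS (P : Fin 2 → ℂ) (m : ℕ) : Submodule ℂ (MvPolynomial (Fin 2) ℂ) where
  carrier := {F | Mul F P m}
  add_mem' := by
    intro F G hF hG s hs
    rw [map_add, coeff_add, hF s hs, hG s hs, add_zero]
  zero_mem' := by
    intro s _
    rw [map_zero, coeff_zero]
  smul_mem' := by
    intro c F hF s hs
    rw [map_smul, coeff_smul, hF s hs, smul_zero]

/-- a space of polynomials on which the values at `p` points determine the polynomial -/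
theorem finrank_le {p : ℕ} (U : Submodule ℂ (MvPolynomial (Fin 2) ℂ)) (B : Fin p → Fin 2 → ℂ)
    (h : ∀ F ∈ U, (∀ i, eval (B i) F = 0) → F = 0) :
    FiniteDimensional ℂ U ∧ finrank ℂ U ≤ p := by
  let ev : U →ₗ[ℂ] (Fin p → ℂ) :=
    LinearMap.pi fun i => ((aeval (B i) : MvPolynomial (Fin 2) ℂ →ₐ[ℂ] ℂ).toLinearMap).comp
      U.subtype
  have hev : ∀ (F : U) i, ev F i = eval (B i) (F : MvPolynomial (Fin 2) ℂ) := fun F i => rfl
  have hinj : Function.Injective ev := by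
    rw [← LinearMap.ker_eq_bot, LinearMap.ker_eq_bot']
    intro F hF
    apply Subtype.ext
    refine h F F.2 fun i => ?_
    rw [← hev, hF]
    rfl
  have hfd : FiniteDimensional ℂ U := FiniteDimensional.of_injective ev hinj
  refine ⟨hfd, ?_⟩
  have h1 := LinearMap.finrank_le_finrank_of_injective hinj
  rwa [finrank_fin_fun] at h1

/-- the points, and the spaces of leading forms -/
theorem common {ι₁ ι₂ : Type} [Finite ι₁] [Finite ι₂] (w₁ : ι₁ → ℕ) (w₂ : ι₂ → ℕ)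
    (D d p q : ℕ)
    (h1 : Emp (Sum.elim w₁ (fun _ : Fin p => 1)) (TZ D)) (h2 : Emp w₁ (TZ (D - 1)))
    (h3 : Emp (Sum.elim (fun o : Option ι₂ => o.elim D w₂) (fun _ : Fin q => 1)) (TZ d))
    (h4 : Emp (fun o : Option ι₂ => o.elim (D + 1) w₂) (TZ d)) :
    ∃ (A : ι₁ → Fin 2 → ℂ) (p0 : Fin 2 → ℂ) (Q : ι₂ → Fin 2 → ℂ)
      (W V : Submodule ℂ (MvPolynomial (Fin 2) ℂ)),
      (∀ i, p0 i ≠ 0) ∧ (∀ j i, Q j i ≠ 0) ∧
      (∀ T ∈ W, T.IsHomogeneous D) ∧ (∀ T ∈ V, T.IsHomogeneous D) ∧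
      finrank ℂ W ≤ p ∧ finrank ℂ V ≤ q ∧
      (∀ F : MvPolynomial (Fin 2) ℂ, F.totalDegree ≤ D - 1 → (∀ i, Mul F (A i) (w₁ i)) → F = 0) ∧
      (∀ F : MvPolynomial (Fin 2) ℂ, F.totalDegree ≤ D → (∀ i, Mul F (A i) (w₁ i)) →
        homogeneousComponent D F ∈ W) ∧
      (∀ F : MvPolynomial (Fin 2) ℂ, F.totalDegree ≤ d → Mul F p0 D →
        (∀ j, Mul F (Q j) (w₂ j)) → homogeneousComponent D (sh p0 F) ∈ V) ∧
      (∀ F : MvPolynomial (Fin 2) ℂ, F.totalDegree ≤ d → Mul F p0 (D + 1) →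
        (∀ j, Mul F (Q j) (w₂ j)) → F = 0) := by
  classical
  obtain ⟨a, ha⟩ : ∃ a : ι₁ ⊕ Fin p → Fin 2 → ℂ,
      AlgebraicIndependent ℚ (fun q : (ι₁ ⊕ Fin p) × Fin 2 => a q.1 q.2) := by
    obtain ⟨f, hf⟩ := Pool.Agent.TH698.NagT3.exists_indep ((ι₁ ⊕ Fin p) × Fin 2)
    exact ⟨fun i j => f (i, j), hf⟩
  obtain ⟨b, hb⟩ : ∃ b : Option ι₂ ⊕ Fin q → Fin 2 → ℂ,
      AlgebraicIndependent ℚ (fun r : (Option ι₂ ⊕ Fin q) × Fin 2 => b r.1 r.2) := by
    obtain ⟨g, hg⟩ := Pool.Agent.TH698.NagT3.exists_indep ((Option ι₂ ⊕ Fin q) × Fin 2)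
    exact ⟨fun i j => g (i, j), hg⟩
  have hbne : ∀ i j, b i j ≠ 0 := fun i j => hb.ne_zero (i, j)
  have ha' : AlgebraicIndependent ℚ (fun q : ι₁ × Fin 2 => a (Sum.inl q.1) q.2) :=
    ha.comp (fun q : ι₁ × Fin 2 => ((Sum.inl q.1 : ι₁ ⊕ Fin p), q.2)) (by
      rintro ⟨i, j⟩ ⟨i', j'⟩ h
      simpa using h)
  have hb' : AlgebraicIndependent ℚ (fun r : Option ι₂ × Fin 2 => b (Sum.inl r.1) r.2) :=
    hb.comp (fun r : Option ι₂ × Fin 2 => ((Sum.inl r.1 : Option ι₂ ⊕ Fin q), r.2)) (by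
      rintro ⟨i, j⟩ ⟨i', j'⟩ h
      simpa using h)
  -- the spaces
  let U₁ : Submodule ℂ (MvPolynomial (Fin 2) ℂ) :=
    restrictTotalDegree (Fin 2) ℂ D ⊓ ⨅ i, MulS (a (Sum.inl i)) (w₁ i)
  let U₂ : Submodule ℂ (MvPolynomial (Fin 2) ℂ) :=
    restrictTotalDegree (Fin 2) ℂ d ⊓ (MulS (b (Sum.inl none)) D ⊓
      ⨅ j, MulS (b (Sum.inl (some j))) (w₂ j))
  have hU₁ : ∀ F, F ∈ U₁ ↔ F.totalDegree ≤ D ∧ ∀ i, Mul F (a (Sum.inl i)) (w₁ i) := by
    intro F
    rw [Submodule.mem_inf, mem_restrictTotalDegree, Submodule.mem_iInf]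
    rfl
  have hU₂ : ∀ F, F ∈ U₂ ↔ F.totalDegree ≤ d ∧ Mul F (b (Sum.inl none)) D ∧
      ∀ j, Mul F (b (Sum.inl (some j))) (w₂ j) := by
    intro F
    rw [Submodule.mem_inf, mem_restrictTotalDegree, Submodule.mem_inf, Submodule.mem_iInf]
    rfl
  obtain ⟨hfd1, hr1⟩ := finrank_le (p := p) U₁ (fun i => a (Sum.inr i)) (by
    intro F hF hv
    obtain ⟨hF1, hF2⟩ := (hU₁ F).1 hF
    refine empty_of (P := a) h1 ha F hF1 ?_
    rintro (i | i)
    · exact hF2 i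
    · exact Mul_one_iff.2 (hv i))
  obtain ⟨hfd2, hr2⟩ := finrank_le (p := q) U₂ (fun i => b (Sum.inr i)) (by
    intro F hF hv
    obtain ⟨hF1, hF2, hF3⟩ := (hU₂ F).1 hF
    refine empty_of (P := b) h3 hb F hF1 ?_
    rintro ((_ | j) | i)
    · exact hF2
    · exact hF3 j
    · exact Mul_one_iff.2 (hv i))
  refine ⟨fun i => a (Sum.inl i), b (Sum.inl none), fun j => b (Sum.inl (some j)),
    U₁.map (homogeneousComponent D),
    U₂.map ((homogeneousComponent D).comp (sh (b (Sum.inl none))).toLinearMap), ?_⟩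
  refine ⟨?_, ?_, ?_, ?_, ?_, ?_, ?_, ?_, ?_, ?_⟩
  · intro i
    exact hbne (Sum.inl none) i
  · intro j i
    exact hbne (Sum.inl (some j)) i
  · rintro _ ⟨F, -, rfl⟩
    exact homogeneousComponent_isHomogeneous D F
  · rintro _ ⟨F, -, rfl⟩
    exact homogeneousComponent_isHomogeneous D _
  · exact (Submodule.finrank_map_le _ U₁).trans hr1
  · exact (Submodule.finrank_map_le _ U₂).trans hr2
  · intro F hF hm
    exact empty_of (P := fun i => a (Sum.inl i)) h2 ha' F hF hm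
  · intro F hF hm
    exact Submodule.mem_map_of_mem ((hU₁ F).2 ⟨hF, hm⟩)
  · intro F hF hm0 hm
    exact ⟨F, (hU₂ F).2 ⟨hF, hm0, hm⟩, rfl⟩
  · intro F hF hm0 hm
    refine empty_of (P := fun o => b (Sum.inl o)) h4 hb' F hF ?_
    rintro (_ | j)
    · exact hm0
    · exact hm j

end Pool.Agent.TH552.BB
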