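import Pool.Agent.H15.G.R_seed8.TH2.NU.Defs
import Pool.Agent.H15.G.R_seed8.TH552.BB.Tr

/-!
# Transversality in one step for any set of exponents (NU2 of helper2)
-/

set_option autoImplicit false

namespace Pool.Agent.TH552.BB.Gen

open Module

variable {K : Type} [Field K]

theorem single_point [CharZero K] {b r : ℕ} (κ : ℕ → ℕ) (hκ : ∀ i < r, κ i ≤ b)
    (hinj : ∀ i < r, ∀ j < r, κ i = κ j → i = j)
    (β : Fin r → Fin (b + 1) → K) (hβ : LinearIndependent K β) :
    ∃ v : Fin 4 → K,
      (Matrix.of fun i j : Fin r => pair (G b v (κ i)) (β j)).det ≠ 0 := by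
  classical
  -- the annihilator
  let M : Matrix (Fin r) (Fin (b + 1)) K := Matrix.of β
  let e : (Fin (b + 1) → K) →ₗ[K] Polynomial K :=
    { toFun := fun w => ∑ a : Fin (b + 1), w a • Polynomial.X ^ (a : ℕ)
      map_add' := by
        intro w w'
        rw [← Finset.sum_add_distrib]
        exact Finset.sum_congr rfl fun a _ => by rw [Pi.add_apply, add_smul]
      map_smul' := by
        intro c w
        rw [RingHom.id_apply, Finset.smul_sum]
        exact Finset.sum_congr rfl fun a _ => by rw [Pi.smul_apply, smul_assoc] }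
  have he : ∀ w, e w = ∑ a : Fin (b + 1), w a • Polynomial.X ^ (a : ℕ) := fun w => rfl
  have hec : ∀ (w : Fin (b + 1) → K) (a : Fin (b + 1)), (e w).coeff a = w a := by
    intro w a
    rw [he, Polynomial.finsetSum_coeff, Finset.sum_eq_single a]
    · rw [Polynomial.coeff_smul, Polynomial.coeff_X_pow, if_pos rfl, smul_eq_mul, mul_one]
    · intro b _ hb
      rw [Polynomial.coeff_smul, Polynomial.coeff_X_pow, if_neg, smul_zero]
      intro h
      exact hb (Fin.ext h.symm)
    · intro h
      exact absurd (Finset.mem_univ _) h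
  have hrb : r ≤ b + 1 := by
    have h1 := hβ.fintype_card_le_finrank
    rwa [Fintype.card_fin, finrank_fin_fun] at h1
  have hed : ∀ w, (e w).natDegree ≤ b := by
    intro w
    rw [he]
    refine Polynomial.natDegree_sum_le_of_forall_le _ _ fun a _ => ?_
    refine (Polynomial.natDegree_smul_le _ _).trans ?_
    rw [Polynomial.natDegree_X_pow]
    have := a.2
    omega
  have hrank : M.rank = r := by
    have h1 : LinearIndependent K M.row := hβ
    rw [h1.rank_matrix, Fintype.card_fin]
  let A : Submodule K (Polynomial K) := (LinearMap.ker M.mulVecLin).map e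
  let B : Submodule K (Polynomial K) :=
    Submodule.span K (Set.range fun i : Fin r => (Polynomial.X : Polynomial K) ^ (κ i))
  have hdA : finrank K A ≤ b + 1 - r := by
    refine (Submodule.finrank_map_le _ _).trans ?_
    have h1 := LinearMap.finrank_range_add_finrank_ker M.mulVecLin
    rw [finrank_fin_fun] at h1
    have h2 : finrank K (LinearMap.range M.mulVecLin) = r := hrank
    omega
  have hdB : finrank K B ≤ r := by
    have h1 := finrank_range_le_card (R := K)
      (fun i : Fin r => (Polynomial.X : Polynomial K) ^ (κ i))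
    rwa [Fintype.card_fin] at h1
  have hBdeg : ∀ q ∈ B, q.natDegree ≤ b := by
    intro q hq
    rw [Submodule.mem_span_range_iff_exists_fun] at hq
    obtain ⟨α, rfl⟩ := hq
    refine Polynomial.natDegree_sum_le_of_forall_le _ _ fun a _ => ?_
    refine (Polynomial.natDegree_smul_le _ _).trans ?_
    rw [Polynomial.natDegree_X_pow]
    exact hκ a a.2
  obtain ⟨c, c', u, hu, H⟩ := transversal (D := b) A B
    (by rintro _ ⟨w, -, rfl⟩; exact hed w) hBdeg (by omega)
  obtain ⟨v, hv⟩ : ∃ v : Fin 4 → K, v = ![c', u - c * c', 1, -c] := ⟨_, rfl⟩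
  refine ⟨v, fun hdet => ?_⟩
  obtain ⟨α, hα0, hα⟩ := Matrix.exists_vecMul_eq_zero_iff.2 hdet
  apply hα0
  -- the polynomials
  obtain ⟨q, hq⟩ : ∃ q : Polynomial K, q = ∑ i : Fin r, α i • Polynomial.X ^ (κ i) :=
    ⟨_, rfl⟩
  obtain ⟨p, hp⟩ : ∃ p : Polynomial K, p = ∑ i : Fin r, α i • G (b) v (κ i) :=
    ⟨_, rfl⟩
  have hki : ∀ i : Fin r, κ i ≤ b := fun i => hκ i i.2
  have hpd : p.natDegree ≤ b := by
    rw [hp]
    refine Polynomial.natDegree_sum_le_of_forall_le _ _ fun a _ => ?_
    exact (Polynomial.natDegree_smul_le _ _).trans (natDegree_G _ _ (hki a))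
  have hqB : q ∈ B := by
    rw [hq, Submodule.mem_span_range_iff_exists_fun]
    exact ⟨α, rfl⟩
  have hpA : p ∈ A := by
    refine ⟨fun a => p.coeff a, ?_, ?_⟩
    · rw [SetLike.mem_coe, LinearMap.mem_ker, Matrix.mulVecLin_apply]
      funext j
      have h1 := congrFun hα j
      rw [Matrix.vecMul, dotProduct] at h1
      rw [Matrix.mulVec, dotProduct]
      rw [Pi.zero_apply] at h1 ⊢
      rw [← h1]
      simp only [Matrix.of_apply, M]
      unfold pair
      rw [hp]
      simp only [Polynomial.finsetSum_coeff, Polynomial.coeff_smul, smul_eq_mul, Finset.mul_sum]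
      rw [Finset.sum_comm]
      refine Finset.sum_congr rfl fun i _ => Finset.sum_congr rfl fun a _ => ?_
      ring
    · ext a
      by_cases ha : a ≤ b
      · exact hec _ ⟨a, by omega⟩
      · rw [Polynomial.coeff_eq_zero_of_natDegree_lt (by have := hed fun a => p.coeff a; omega),
          Polynomial.coeff_eq_zero_of_natDegree_lt (by omega)]
  have key : Polynomial.taylor c p = sw (b) u (Polynomial.taylor c' q) := by
    have hq' : (Polynomial.taylor c' q).natDegree ≤ b := by
      rw [Polynomial.natDegree_taylor]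
      exact hBdeg q hqB
    have h0 : Polynomial.X * (Polynomial.taylor c p -
        sw (b) u (Polynomial.taylor c' q)) = 0 := by
      apply Polynomial.funext
      intro x
      rw [Polynomial.eval_mul, Polynomial.eval_X, Polynomial.eval_zero]
      rcases eq_or_ne x 0 with rfl | hx
      · rw [zero_mul]
      rw [Polynomial.eval_sub, eval_sw hx hq', Polynomial.taylor_eval, Polynomial.taylor_eval,
        hp, hq, Polynomial.eval_finsetSum, Polynomial.eval_finsetSum, Finset.mul_sum,
        ← Finset.sum_sub_distrib]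
      rw [mul_eq_zero]
      right
      apply Finset.sum_eq_zero
      intro i _
      have hk := hki i
      obtain ⟨k, hk'⟩ : ∃ k, k = κ i := ⟨_, rfl⟩
      rw [← hk'] at hk ⊢
      unfold G
      rw [hv]
      simp only [Polynomial.eval_smul, Polynomial.eval_mul, Polynomial.eval_pow,
        Polynomial.eval_add, Polynomial.eval_C, Polynomial.eval_X, smul_eq_mul,
        Matrix.cons_val_zero, Matrix.cons_val_one, Matrix.cons_val]
      have h1 : x ^ (b) = x ^ (b - k) * x ^ k := by rw [← pow_add, Nat.sub_add_cancel hk]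
      have h2 : c' * (x + c) + (u - c * c') = x * (u / x + c') := by field_simp; ring
      have h3 : (1 : K) * (x + c) + -c = x := by ring
      rw [h1, h2, h3, mul_pow]
      ring
    rcases mul_eq_zero.1 h0 with h1 | h1
    · exact absurd h1 Polynomial.X_ne_zero
    · exact sub_eq_zero.1 h1
  obtain ⟨-, hq0⟩ := H p hpA q hqB key
  funext i
  have h1 : q.coeff (κ i) = α i := by
    rw [hq, Polynomial.finsetSum_coeff, Finset.sum_eq_single i]
    · rw [Polynomial.coeff_smul, Polynomial.coeff_X_pow, if_pos rfl, smul_eq_mul, mul_one]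
    · intro j _ hj
      rw [Polynomial.coeff_smul, Polynomial.coeff_X_pow, if_neg, smul_zero]
      intro h
      exact hj (Fin.ext (hinj _ j.2 _ i.2 h.symm))
    · intro h
      exact absurd (Finset.mem_univ _) h
  rw [← h1, hq0, Polynomial.coeff_zero]
  rfl

/-- one choice of linear forms which is good for finitely many families -/
theorem common_point [CharZero K] {b c : ℕ} (κ : ℕ → ℕ) (hκ : ∀ i < c, κ i ≤ b)
    (hinj : ∀ i < c, ∀ j < c, κ i = κ j → i = j) {τ : Type} [Finite τ] (r : τ → ℕ)
    (hr : ∀ s, r s ≤ c)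
    (β : ∀ s, Fin (r s) → Fin (b + 1) → K) (hβ : ∀ s, LinearIndependent K (β s)) :
    ∃ v : Fin 4 → K, v 0 * v 3 - v 1 * v 2 ≠ 0 ∧
      ∀ s, (Matrix.of fun i j : Fin (r s) =>
        pair (G b v (κ i)) (β s j)).det ≠ 0 := by
  classical
  have : Fintype τ := Fintype.ofFinite τ
  let Xv : Fin 4 → MvPolynomial (Fin 4) K := MvPolynomial.X
  let Φ : τ → MvPolynomial (Fin 4) K := fun s =>
    (Matrix.of fun i j : Fin (r s) => ∑ a : Fin (b + 1),
      (G b Xv (κ i)).coeff a * MvPolynomial.C (β s j a)).det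
  have hG : ∀ (v : Fin 4 → K) (k : ℕ),
      (G b Xv k).map (MvPolynomial.eval v) = G (b) v k := by
    intro v k
    unfold G
    simp only [Polynomial.map_mul, Polynomial.map_pow, Polynomial.map_add, Polynomial.map_C,
      Polynomial.map_X, Xv, MvPolynomial.eval_X]
  have hΦ : ∀ (v : Fin 4 → K) s, MvPolynomial.eval v (Φ s) =
      (Matrix.of fun i j : Fin (r s) => pair (G b v (κ i)) (β s j)).det := by
    intro v s
    rw [RingHom.map_det]
    congr 1
    ext i j
    show MvPolynomial.eval v (∑ a : Fin (b + 1),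
      (G b Xv (κ i)).coeff a * MvPolynomial.C (β s j a)) =
      ∑ a : Fin (b + 1), (G b v (κ i)).coeff a * β s j a
    rw [map_sum]
    refine Finset.sum_congr rfl fun a _ => ?_
    rw [map_mul, MvPolynomial.eval_C, ← hG v, Polynomial.coeff_map]
  have hΦ0 : ∀ s, Φ s ≠ 0 := by
    intro s h0
    obtain ⟨v, hv⟩ := single_point κ (fun i hi => hκ i (hi.trans_le (hr s)))
      (fun i hi j hj h => hinj i (hi.trans_le (hr s)) j (hj.trans_le (hr s)) h) (β s) (hβ s)
    apply hv
    rw [← hΦ, h0, map_zero]
  have hdet0 : (MvPolynomial.X 0 * MvPolynomial.X 3 - MvPolynomial.X 1 * MvPolynomial.X 2 :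
      MvPolynomial (Fin 4) K) ≠ 0 := by
    intro h0
    have h1 := congrArg (MvPolynomial.eval ![(1 : K), 0, 0, 1]) h0
    simp at h1
  have hprod : (MvPolynomial.X 0 * MvPolynomial.X 3 - MvPolynomial.X 1 * MvPolynomial.X 2 :
      MvPolynomial (Fin 4) K) * ∏ s, Φ s ≠ 0 :=
    mul_ne_zero hdet0 (Finset.prod_ne_zero_iff.2 fun s _ => hΦ0 s)
  obtain ⟨v, hv⟩ : ∃ v : Fin 4 → K, MvPolynomial.eval v
      ((MvPolynomial.X 0 * MvPolynomial.X 3 - MvPolynomial.X 1 * MvPolynomial.X 2 :
      MvPolynomial (Fin 4) K) * ∏ s, Φ s) ≠ 0 := by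
    by_contra hne
    push Not at hne
    exact hprod (MvPolynomial.funext fun v => by rw [hne v, map_zero])
  rw [map_mul, map_prod] at hv
  refine ⟨v, ?_, fun s => ?_⟩
  · have := left_ne_zero_of_mul hv
    simpa using this
  · rw [← hΦ]
    exact Finset.prod_ne_zero_iff.1 (right_ne_zero_of_mul hv) s (Finset.mem_univ s)

/-- the bound for the intersections, in coordinates -/
theorem coord [CharZero K] {b c : ℕ} (κ : ℕ → ℕ) (hκ : ∀ i < c, κ i ≤ b)
    (hinj : ∀ i < c, ∀ j < c, κ i = κ j → i = j) {τ : Type} [Finite τ]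
    (B : τ → Submodule K (Fin (b + 1) → K)) :
    ∃ v : Fin 4 → K, v 0 * v 3 - v 1 * v 2 ≠ 0 ∧ ∀ s,
      ∀ C : Submodule K (Fin (b + 1) → K), C ≤ B s →
        (∀ β ∈ C, ∀ i < c, pair (G b v (κ i)) β = 0) →
        finrank K C ≤ finrank K (B s) - c := by
  classical
  have hex : ∀ s, ∃ f : Fin (min c (finrank K (B s))) → B s, LinearIndependent K f := fun s =>
    exists_linearIndependent_of_le_finrank (min_le_right _ _)
  choose f hf using hex
  obtain ⟨v, hv, H⟩ := common_point κ hκ hinj (fun s => min c (finrank K (B s))) (fun s => min_le_left _ _)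
    (fun s j => ((f s j : B s) : Fin (b + 1) → K))
    (fun s => (hf s).map' (B s).subtype (Submodule.ker_subtype _))
  refine ⟨v, hv, fun s C hC hpair => ?_⟩
  -- the span of the family meets `C` in zero
  let W : Submodule K (Fin (b + 1) → K) :=
    Submodule.span K (Set.range fun j => ((f s j : B s) : Fin (b + 1) → K))
  have hli : LinearIndependent K (fun j => ((f s j : B s) : Fin (b + 1) → K)) :=
    (hf s).map' (B s).subtype (Submodule.ker_subtype _)
  have hW : finrank K W = min c (finrank K (B s)) := by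
    rw [finrank_span_eq_card hli, Fintype.card_fin]
  have hdisj : C ⊓ W = ⊥ := by
    rw [eq_bot_iff]
    rintro β ⟨hβC, hβW⟩
    rw [SetLike.mem_coe, Submodule.mem_span_range_iff_exists_fun] at hβW
    obtain ⟨α, hα⟩ := hβW
    have h1 : Matrix.mulVec (Matrix.of fun i j : Fin (min c (finrank K (B s))) =>
        pair (G b v (κ i)) ((f s j : B s) : Fin (b + 1) → K)) α = 0 := by
      funext i
      have hi : (i : ℕ) < c := lt_of_lt_of_le i.2 (min_le_left _ _)
      have h2 := hpair β hβC i hi
      rw [Matrix.mulVec, dotProduct, Pi.zero_apply, ← h2, ← hα]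
      unfold pair
      simp only [Matrix.of_apply, Finset.sum_apply, Pi.smul_apply, smul_eq_mul, Finset.mul_sum,
        Finset.sum_mul]
      rw [Finset.sum_comm]
      refine Finset.sum_congr rfl fun a _ => Finset.sum_congr rfl fun j _ => ?_
      ring
    have h3 := Matrix.eq_zero_of_mulVec_eq_zero (H s) h1
    rw [Submodule.mem_bot, ← hα, h3]
    simp
  have h4 := Submodule.finrank_sup_add_finrank_inf_eq C W
  rw [hdisj, finrank_bot, hW] at h4
  have h5 : C ⊔ W ≤ B s := by
    refine sup_le hC ?_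
    rw [Submodule.span_le]
    rintro _ ⟨j, rfl⟩
    exact (f s j).2
  have h6 := Submodule.finrank_mono h5
  omega

open Pool.Agent.TH763.DB Pool.Agent.TH176.Nag Pool.Agent.TH2.NU in
/-- transversality in one step, for finitely many spaces and any set of exponents -/
theorem trans_gen [CharZero K] (x y : K) (b : ℕ) (I : Finset ℕ)
    (hI : I ⊆ Finset.range (b + 1)) {τ : Type} [Finite τ]
    (A : τ → Submodule K ((ℤ × ℤ) →₀ K)) (hA : ∀ s, FiniteDimensional K ↥(A s)) :
    ∃ D E : K × K, D.1 * E.2 - D.2 * E.1 ≠ 0 ∧ ∀ s,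
      finrank K ↥(A s ⊓ OdI x y D E b I) ≤
        max (finrank K ↥(A s ⊓ TopB x y b)) (finrank K ↥(A s) - I.card) := by
  classical
  let φ : ((ℤ × ℤ) →₀ K) →ₗ[K] (Fin (b + 1) → K) :=
    { toFun := fun f a => pr f x y (fun u => u.1 ^ (a : ℕ) * u.2 ^ (b - a))
      map_add' := by
        intro f g
        funext a
        exact Pool.Agent.TH603.Sur.pr_add_left' _ _ _ _ _
      map_smul' := by
        intro c f
        funext a
        exact Pool.Agent.TH603.Sur.pr_smul_left _ _ _ _ _ }
  have hφ : ∀ f a, φ f a = pr f x y (fun u => u.1 ^ (a : ℕ) * u.2 ^ (b - a)) :=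
    fun f a => rfl
  have hker : LinearMap.ker φ = TopB x y b := by
    ext f
    rw [LinearMap.mem_ker]
    unfold TopB
    simp only [Submodule.mem_iInf, mem_Ker]
    constructor
    · intro h a b' hab
      have h1 := congrFun h ⟨a, by omega⟩
      rw [hφ] at h1
      have h2 : b - a = b' := by omega
      simp only [h2] at h1
      exact h1
    · intro h
      funext a
      have ha := a.2
      exact h a (b - a) (by omega)
  have hpr : ∀ (D E : K × K) (k l : ℕ) (f : (ℤ × ℤ) →₀ K), k + l = b →
      pr f x y (qq D E k l) = pair (G b ![D.1, D.2, E.1, E.2] k) (φ f) := by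
    intro D E k l f hkl
    have h1 : qq D E k l = ∑ a : Fin (b + 1), (G b ![D.1, D.2, E.1, E.2] k).coeff a •
        (fun u : K × K => u.1 ^ (a : ℕ) * u.2 ^ (b - a)) := by
      funext u
      rw [hom_qq hkl, Finset.sum_apply]
      rfl
    have h2 : pr f x y (qq D E k l) = prL f x y (qq D E k l) := rfl
    rw [h2, h1, map_sum]
    unfold pair
    refine Finset.sum_congr rfl fun a _ => ?_
    rw [map_smul, smul_eq_mul]
    rfl
  obtain ⟨κ, hκI, hinj⟩ : ∃ κ : ℕ → ℕ, (∀ i < I.card, κ i ∈ I) ∧
      ∀ i < I.card, ∀ j < I.card, κ i = κ j → i = j := by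
    refine ⟨fun i => if h : i < I.card then I.orderEmbOfFin rfl ⟨i, h⟩ else 0, ?_, ?_⟩
    · intro i hi
      simp only [dif_pos hi]
      exact Finset.orderEmbOfFin_mem _ _ _
    · intro i hi j hj h
      simp only [dif_pos hi, dif_pos hj] at h
      have h1 := (I.orderEmbOfFin rfl).injective h
      simpa using h1
  have hκ : ∀ i < I.card, κ i ≤ b := by
    intro i hi
    have := Finset.mem_range.1 (hI (hκI i hi))
    omega
  obtain ⟨v, hv, H⟩ := coord κ hκ hinj (fun s => (A s).map φ)
  have hvv : v = ![v 0, v 1, v 2, v 3] := by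
    funext i
    fin_cases i <;> rfl
  refine ⟨(v 0, v 1), (v 2, v 3), hv, fun s => ?_⟩
  have := hA s
  have hN : FiniteDimensional K ↥(A s ⊓ OdI x y (v 0, v 1) (v 2, v 3) b I) :=
    Submodule.finiteDimensional_of_le inf_le_left
  have h1 := H s ((A s ⊓ OdI x y (v 0, v 1) (v 2, v 3) b I).map φ) (Submodule.map_mono inf_le_left) (by
    rintro _ ⟨f, ⟨-, hf⟩, rfl⟩ i hi
    have h2 := hpr (v 0, v 1) (v 2, v 3) (κ i) (b - κ i) f (by have := hκ i hi; omega)
    simp only at h2
    rw [← hvv] at h2
    rw [← h2]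
    unfold OdI at hf
    simp only [Submodule.mem_iInf, SetLike.mem_coe, mem_Ker] at hf
    exact hf (κ i) (hκI i hi))
  have h2 := finrank_split φ (A s)
  have h3 := finrank_split φ (A s ⊓ OdI x y (v 0, v 1) (v 2, v 3) b I)
  rw [hker] at h2 h3
  have hfd : FiniteDimensional K ↥(A s ⊓ TopB x y b) :=
    Submodule.finiteDimensional_of_le inf_le_left
  have h4 : finrank K ↥(A s ⊓ OdI x y (v 0, v 1) (v 2, v 3) b I ⊓ TopB x y b) ≤
      finrank K ↥(A s ⊓ TopB x y b) :=
    Submodule.finrank_mono (inf_le_inf_right _ inf_le_left)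
  rcases le_total (finrank K ↥(A s ⊓ TopB x y b)) (finrank K ↥(A s) - I.card) with h5 | h5
  · rw [max_eq_right h5]
    omega
  · rw [max_eq_left h5]
    omega

end Pool.Agent.TH552.BB.Gen
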