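import Mathlib

/-!
# Transversality of binary forms

Two spaces `A`, `B` of polynomials of degree at most `D` (binary forms of degree `D`) with
`dim A + dim B ≤ D + 1` meet only in `0` after a linear change of the two variables in `B`.
-/

set_option autoImplicit false

namespace Pool.Agent.TH552.BB

open Polynomial Module

variable {K : Type*} [Field K]

theorem det_choose_ne [CharZero K] {a : ℕ} (e : Fin a → ℕ) (he : Function.Injective e) :
    (Matrix.of fun i j : Fin a => ((Nat.choose (e i) j : ℕ) : K)).det ≠ 0 := by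
  have h1 := Matrix.det_eval_matrixOfPolynomials_eq_det_vandermonde (fun i => (e i : K))
    (fun i => descPochhammer K i) (fun i => descPochhammer_natDegree K i)
    (fun i => monic_descPochhammer K i)
  have h2 : (Matrix.of fun i j : Fin a => (descPochhammer K j).eval (e i : K)).det =
      (∏ i : Fin a, (Nat.factorial i : K)) *
        (Matrix.of fun i j : Fin a => ((Nat.choose (e i) j : ℕ) : K)).det := by
    rw [← Matrix.det_mul_row]
    congr 1
    ext i j
    rw [Matrix.of_apply, Matrix.of_apply, Matrix.of_apply,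
      descPochhammer_eval_eq_descFactorial, Nat.descFactorial_eq_factorial_mul_choose]
    push_cast
    rfl
  intro h0
  rw [h0, mul_zero] at h2
  rw [h2] at h1
  have h3 := h1
  rw [Matrix.det_vandermonde_eq_zero_iff] at h3
  obtain ⟨i, j, hij, hne⟩ := h3
  exact hne (he (by exact_mod_cast hij))

/-- the leading terms at a general point -/
theorem exists_taylor [CharZero K] {a : ℕ} (f : Fin a → K[X]) (hm : ∀ j, (f j).Monic)
    (hinj : Function.Injective fun j => (f j).natDegree) :
    ∃ c : K, (Matrix.of fun j i : Fin a => (taylor c (f j)).coeff i).det ≠ 0 := by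
  classical
  let P : Fin a → Fin a → K[X] := fun j i => X ^ (i : ℕ) * hasseDeriv i (f j)
  have hPc : ∀ j i k, (P j i).coeff k = (Nat.choose k i : K) * (f j).coeff k := by
    intro j i k
    show (X ^ (i : ℕ) * hasseDeriv i (f j)).coeff k = _
    rw [coeff_X_pow_mul']
    split_ifs with h
    · rw [hasseDeriv_coeff, Nat.sub_add_cancel h]
    · rw [Nat.choose_eq_zero_of_lt (by omega)]
      simp
  have hPd : ∀ j i, (P j i).natDegree ≤ (f j).natDegree := by
    intro j i
    rw [natDegree_le_iff_coeff_eq_zero]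
    intro k hk
    rw [hPc, coeff_eq_zero_of_natDegree_lt hk, mul_zero]
  let N : Matrix (Fin a) (Fin a) K[X] := Matrix.of fun j i => reflect (f j).natDegree (P j i)
  have hN0 : (N.det).eval 0 ≠ 0 := by
    rw [← coe_evalRingHom, RingHom.map_det]
    have : (evalRingHom (0 : K)).mapMatrix N =
        Matrix.of fun i j : Fin a => ((Nat.choose ((f i).natDegree) j : ℕ) : K) := by
      ext j i
      show (reflect (f j).natDegree (P j i)).eval 0 = ((Nat.choose ((f j).natDegree) i : ℕ) : K)
      rw [← coeff_zero_eq_eval_zero, coeff_reflect, revAt_zero, hPc,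
        (hm j).coeff_natDegree, mul_one]
    rw [this]
    exact det_choose_ne _ hinj
  obtain ⟨u, hu⟩ : ∃ u : K, (X * N.det).eval u ≠ 0 := by
    by_contra hcon
    push Not at hcon
    have h1 : X * N.det = 0 := Polynomial.funext fun u => by rw [hcon u, eval_zero]
    rw [mul_eq_zero] at h1
    rcases h1 with h1 | h1
    · exact X_ne_zero h1
    · rw [h1, eval_zero] at hN0
      exact hN0 rfl
  rw [eval_mul, eval_X] at hu
  have hu0 : u ≠ 0 := left_ne_zero_of_mul hu
  have hu1 : N.det.eval u ≠ 0 := right_ne_zero_of_mul hu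
  refine ⟨u⁻¹, fun h0 => hu1 ?_⟩
  let _ : Invertible (u⁻¹) := invertibleOfNonzero (inv_ne_zero hu0)
  have hinvOf : ⅟(u⁻¹) = u := by rw [invOf_eq_inv, inv_inv]
  have key : ∀ j i : Fin a, (N j i).eval u * u⁻¹ ^ (f j).natDegree =
      u⁻¹ ^ (i : ℕ) * (taylor u⁻¹ (f j)).coeff i := by
    intro j i
    have h1 := eval₂_reflect_mul_pow (RingHom.id K) (u⁻¹) (f j).natDegree (P j i) (hPd j i)
    rw [hinvOf] at h1
    have h2 : eval₂ (RingHom.id K) (u⁻¹) (P j i) = u⁻¹ ^ (i : ℕ) * (taylor u⁻¹ (f j)).coeff i := by
      show eval (u⁻¹) (X ^ (i : ℕ) * hasseDeriv i (f j)) = _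
      rw [eval_mul, eval_pow, eval_X, taylor_coeff]
    rw [← h2, ← h1]
    rfl
  rw [← coe_evalRingHom, RingHom.map_det]
  have h3 : (∏ j : Fin a, u⁻¹ ^ (f j).natDegree) * ((evalRingHom u).mapMatrix N).det =
      (∏ i : Fin a, u⁻¹ ^ (i : ℕ)) *
        (Matrix.of fun j i : Fin a => (taylor u⁻¹ (f j)).coeff i).det := by
    rw [← Matrix.det_mul_column, ← Matrix.det_mul_row]
    congr 1
    ext j i
    rw [Matrix.of_apply, Matrix.of_apply, Matrix.of_apply, ← key, RingHom.mapMatrix_apply,
      Matrix.map_apply, coe_evalRingHom, mul_comm]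
  rw [h0, mul_zero] at h3
  rcases mul_eq_zero.1 h3 with h4 | h4
  · exfalso
    rw [Finset.prod_eq_zero_iff] at h4
    obtain ⟨j, -, hj⟩ := h4
    exact pow_ne_zero _ (inv_ne_zero hu0) hj
  · exact h4

/-- a space of polynomials of dimension `a` has, after a translation, a basis `f` with
`f i = x ^ i` up to terms of degree at least `a` -/
theorem exists_basis [CharZero K] {D : ℕ} (A : Submodule K K[X])
    (hA : ∀ p ∈ A, p.natDegree ≤ D) :
    ∃ (a : ℕ) (c : K) (f : Fin a → K[X]), a = finrank K A ∧
      (∀ p ∈ A, ∃ α : Fin a → K, taylor c p = ∑ i, α i • f i) ∧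
      (∀ i, (f i).natDegree ≤ D) ∧
      ∀ i j : Fin a, (f i).coeff j = if i = j then 1 else 0 := by
  classical
  -- the degrees
  let E : Finset ℕ := (Finset.range (D + 1)).filter fun e => ∃ p ∈ A, p.Monic ∧ p.natDegree = e
  have hE : ∀ e : E, ∃ p ∈ A, p.Monic ∧ p.natDegree = e := fun e => (Finset.mem_filter.1 e.2).2
  choose P hPA hPm hPd using hE
  let ee := E.equivFin
  let g : Fin E.card → K[X] := fun i => P (ee.symm i)
  have hgA : ∀ i, g i ∈ A := fun i => hPA _
  have hgm : ∀ i, (g i).Monic := fun i => hPm _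
  have hginj : Function.Injective fun i => (g i).natDegree := by
    intro i j hij
    simp only [g, hPd] at hij
    exact ee.symm.injective (Subtype.ext hij)
  obtain ⟨c, hc⟩ := exists_taylor g hgm hginj
  obtain ⟨M, hM⟩ : ∃ M : Matrix (Fin E.card) (Fin E.card) K,
    M = Matrix.of fun j i : Fin E.card => (taylor c (g j)).coeff i := ⟨_, rfl⟩
  rw [← hM] at hc
  have hMc : ∀ j i, M j i = (taylor c (g j)).coeff i := by
    intro j i
    rw [hM]
    rfl
  have hunit : IsUnit M.det := isUnit_iff_ne_zero.2 hc
  -- spanning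
  have hspan : ∀ n : ℕ, ∀ p ∈ A, p.degree < n → p ∈ Submodule.span K (Set.range g) := by
    intro n
    induction n with
    | zero =>
      intro p _ hp
      have : p = 0 := by
        by_contra hne
        rw [degree_eq_natDegree hne] at hp
        exact absurd hp (not_lt.2 (by exact_mod_cast Nat.zero_le _))
      rw [this]
      exact zero_mem _
    | succ n ih =>
      intro p hp hpn
      rcases eq_or_ne p 0 with rfl | hp0
      · exact zero_mem _
      have hl : p.leadingCoeff ≠ 0 := leadingCoeff_ne_zero.2 hp0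
      have hmem : p.natDegree ∈ E := by
        refine Finset.mem_filter.2 ⟨Finset.mem_range.2 (by have := hA p hp; omega), ?_⟩
        refine ⟨p.leadingCoeff⁻¹ • p, A.smul_mem _ hp, ?_, ?_⟩
        · rw [smul_eq_C_mul]
          exact monic_C_mul_of_mul_leadingCoeff_eq_one (inv_mul_cancel₀ hl)
        · rw [natDegree_smul _ (inv_ne_zero hl)]
      have hq : P ⟨p.natDegree, hmem⟩ = g (ee ⟨p.natDegree, hmem⟩) := by
        show _ = P (ee.symm _)
        rw [Equiv.symm_apply_apply]
      have hqm := hPm ⟨p.natDegree, hmem⟩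
      have hqd : (P ⟨p.natDegree, hmem⟩).natDegree = p.natDegree := hPd ⟨p.natDegree, hmem⟩
      have hdeg : p.degree = (p.leadingCoeff • P ⟨p.natDegree, hmem⟩).degree := by
        rw [smul_eq_C_mul, degree_C_mul hl, degree_eq_natDegree hqm.ne_zero, hqd,
          degree_eq_natDegree hp0]
      have hlc : p.leadingCoeff = (p.leadingCoeff • P ⟨p.natDegree, hmem⟩).leadingCoeff := by
        rw [smul_eq_C_mul, leadingCoeff_mul, leadingCoeff_C, hqm.leadingCoeff, mul_one]
      have hlt := degree_sub_lt_left hdeg hp0 hlc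
      have hsub : p - p.leadingCoeff • P ⟨p.natDegree, hmem⟩ ∈ Submodule.span K (Set.range g) := by
        refine ih _ (A.sub_mem hp (A.smul_mem _ (hPA _))) ?_
        rw [degree_eq_natDegree hp0] at hlt hpn
        refine lt_of_lt_of_le hlt ?_
        have : p.natDegree < n + 1 := by exact_mod_cast hpn
        exact_mod_cast Nat.lt_succ_iff.1 this
      have h2 : p.leadingCoeff • P ⟨p.natDegree, hmem⟩ ∈ Submodule.span K (Set.range g) := by
        rw [hq]
        exact Submodule.smul_mem _ _ (Submodule.subset_span ⟨_, rfl⟩)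
      have h3 := add_mem hsub h2
      rwa [sub_add_cancel] at h3
  have hspanA : Submodule.span K (Set.range g) = A := by
    apply le_antisymm
    · rw [Submodule.span_le]
      rintro _ ⟨i, rfl⟩
      exact hgA i
    · intro p hp
      refine hspan (p.natDegree + 1) p hp ?_
      exact lt_of_le_of_lt degree_le_natDegree (by exact_mod_cast Nat.lt_succ_self _)
  -- independence
  have hsum : ∀ α : Fin E.card → K, ∀ i : Fin E.card,
      (taylor c (∑ j, α j • g j)).coeff i = Matrix.vecMul α M i := by
    intro α i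
    rw [map_sum, finsetSum_coeff, Matrix.vecMul, dotProduct]
    refine Finset.sum_congr rfl fun j _ => ?_
    rw [map_smul, coeff_smul, hMc, smul_eq_mul]
  have hli : LinearIndependent K g := by
    rw [Fintype.linearIndependent_iff]
    intro α hα
    have h1 : Matrix.vecMul α M = 0 := by
      ext i
      rw [← hsum, hα, map_zero, coeff_zero]
      rfl
    have h2 := Matrix.eq_zero_of_vecMul_eq_zero hc h1
    intro i
    rw [h2]
    rfl
  refine ⟨E.card, c, fun i => ∑ j, M⁻¹ i j • taylor c (g j), ?_, ?_, ?_, ?_⟩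
  · rw [← hspanA, finrank_span_eq_card hli, Fintype.card_fin]
  · intro p hp
    rw [← hspanA, Submodule.mem_span_range_iff_exists_fun] at hp
    obtain ⟨β, rfl⟩ := hp
    refine ⟨Matrix.vecMul β M, ?_⟩
    have h1 : ∀ i, (Matrix.vecMul β M) i • ∑ j, M⁻¹ i j • taylor c (g j) =
        ∑ j, ((Matrix.vecMul β M) i * M⁻¹ i j) • taylor c (g j) := by
      intro i
      rw [Finset.smul_sum]
      exact Finset.sum_congr rfl fun j _ => smul_smul _ _ _
    rw [Finset.sum_congr rfl fun i _ => h1 i, Finset.sum_comm, map_sum]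
    refine Finset.sum_congr rfl fun j _ => ?_
    rw [← Finset.sum_smul, map_smul]
    congr 1
    have h2 : ∑ i, Matrix.vecMul β M i * M⁻¹ i j = Matrix.vecMul (Matrix.vecMul β M) M⁻¹ j := rfl
    rw [h2, Matrix.vecMul_vecMul, Matrix.mul_nonsing_inv _ hunit, Matrix.vecMul_one]
  · intro i
    refine natDegree_sum_le_of_forall_le _ _ fun j _ => ?_
    refine (natDegree_smul_le _ _).trans ?_
    rw [natDegree_taylor]
    exact hA _ (hgA j)
  · intro i l
    rw [finsetSum_coeff]
    have h1 : ∀ j, (M⁻¹ i j • taylor c (g j)).coeff l = M⁻¹ i j * M j l := by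
      intro j
      rw [coeff_smul, hMc, smul_eq_mul]
    rw [Finset.sum_congr rfl fun j _ => h1 j]
    have h2 : ∑ j, M⁻¹ i j * M j l = (M⁻¹ * M) i l := rfl
    rw [h2, Matrix.nonsing_inv_mul _ hunit, Matrix.one_apply]

/-- the form `q (u Y, X)` for a polynomial `q` of degree at most `D` (a form `q (X, Y)`) -/
noncomputable def sw (D : ℕ) (u : K) (q : K[X]) : K[X] :=
  ∑ k ∈ Finset.range (D + 1), monomial (D - k) (q.coeff k * u ^ k)

theorem coeff_sw {D : ℕ} (u : K) (q : K[X]) {k : ℕ} (hk : k ≤ D) :
    (sw D u q).coeff (D - k) = q.coeff k * u ^ k := by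
  unfold sw
  rw [finsetSum_coeff, Finset.sum_eq_single k]
  · rw [coeff_monomial, if_pos rfl]
  · intro l hl hlk
    rw [coeff_monomial, if_neg]
    have := Finset.mem_range.1 hl
    omega
  · intro h
    exact absurd (Finset.mem_range.2 (by omega)) h

/-- transversality -/
theorem transversal [CharZero K] {D : ℕ} (A B : Submodule K K[X])
    (hA : ∀ p ∈ A, p.natDegree ≤ D) (hB : ∀ q ∈ B, q.natDegree ≤ D)
    (hdim : finrank K A + finrank K B ≤ D + 1) :
    ∃ c c' u : K, u ≠ 0 ∧ ∀ p ∈ A, ∀ q ∈ B, taylor c p = sw D u (taylor c' q) → p = 0 ∧ q = 0 := by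
  classical
  obtain ⟨a, c, f, ha, hfA, hfD, hf⟩ := exists_basis A hA
  obtain ⟨b, c', g, hb, hgB, hgD, hg⟩ := exists_basis B hB
  rw [← ha, ← hb] at hdim
  -- the matrix
  let up : Matrix (Fin a) (Fin b) K[X] := Matrix.of fun i k => C ((f i).coeff (D - k))
  let low : Matrix (Fin b) (Fin a) K[X] :=
    Matrix.of fun j e => C ((g j).coeff (D - e)) * X ^ (D - e - j)
  let R : Matrix (Fin a ⊕ Fin b) (Fin a ⊕ Fin b) K[X] := Matrix.fromBlocks 1 up low 1
  have hR0 : (R.det).eval 0 ≠ 0 := by
    rw [← coe_evalRingHom, RingHom.map_det]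
    have h1 : (evalRingHom (0 : K)).mapMatrix R =
        Matrix.fromBlocks 1 (up.map (evalRingHom (0 : K))) 0 1 := by
      rw [RingHom.mapMatrix_apply, Matrix.fromBlocks_map]
      congr 1
      · exact Matrix.map_one _ (map_zero _) (map_one _)
      · ext j e
        show (C ((g j).coeff (D - e)) * X ^ (D - e - j)).eval 0 = 0
        rw [eval_mul, eval_pow, eval_X, zero_pow, mul_zero]
        have := e.2
        have := j.2
        omega
      · exact Matrix.map_one _ (map_zero _) (map_one _)
    rw [h1, Matrix.det_fromBlocks_zero₂₁, Matrix.det_one, Matrix.det_one, mul_one]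
    exact one_ne_zero
  obtain ⟨u, hu⟩ : ∃ u : K, (X * R.det).eval u ≠ 0 := by
    by_contra hcon
    push Not at hcon
    have h1 : X * R.det = 0 := Polynomial.funext fun u => by rw [hcon u, eval_zero]
    rw [mul_eq_zero] at h1
    rcases h1 with h1 | h1
    · exact X_ne_zero h1
    · rw [h1, eval_zero] at hR0
      exact hR0 rfl
  rw [eval_mul, eval_X] at hu
  have hu0 : u ≠ 0 := left_ne_zero_of_mul hu
  have hu1 : R.det.eval u ≠ 0 := right_ne_zero_of_mul hu
  refine ⟨c, c', u, hu0, fun p hp q hq hpq => ?_⟩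
  obtain ⟨α, hα⟩ := hfA p hp
  obtain ⟨β, hβ⟩ := hgB q hq
  rw [hα] at hpq
  rw [← coe_evalRingHom, RingHom.map_det] at hu1
  -- the vector in the kernel
  have hker : Matrix.vecMul (Sum.elim α fun j => -(β j * u ^ (j : ℕ)))
      ((evalRingHom u).mapMatrix R) = 0 := by
    have hco : ∀ k, k ≤ D → (∑ i, α i * (f i).coeff (D - k)) =
        (∑ j, β j * (g j).coeff k) * u ^ k := by
      intro k hk
      have h1 := congrArg (fun r => r.coeff (D - k)) hpq
      rw [coeff_sw _ _ hk, hβ, finsetSum_coeff, finsetSum_coeff] at h1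
      simpa only [coeff_smul, smul_eq_mul] using h1
    rw [RingHom.mapMatrix_apply, Matrix.fromBlocks_map, Matrix.vecMul_fromBlocks]
    funext s
    rcases s with e | k
    · rw [Sum.elim_inl, Pi.zero_apply, Matrix.map_one _ (map_zero _) (map_one _)]
      rw [Pi.add_apply, Function.comp_def, Function.comp_def, Matrix.vecMul_one, Matrix.vecMul,
        dotProduct]
      simp only [Sum.elim_inl, Sum.elim_inr]
      have he := e.2
      have h1 := hco (D - e) (by omega)
      have h2 : D - (D - (e : ℕ)) = e := by omega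
      rw [h2] at h1
      have h3 : ∑ i, α i * (f i).coeff e = α e := by
        rw [Finset.sum_eq_single e]
        · rw [hf, if_pos rfl, mul_one]
        · intro i _ hi
          rw [hf, if_neg hi, mul_zero]
        · intro h
          exact absurd (Finset.mem_univ _) h
      rw [h3] at h1
      rw [h1, Finset.sum_mul, ← Finset.sum_add_distrib]
      apply Finset.sum_eq_zero
      intro j _
      show β j * (g j).coeff (D - e) * u ^ (D - (e : ℕ)) +
        -(β j * u ^ (j : ℕ)) * (C ((g j).coeff (D - e)) * X ^ (D - (e : ℕ) - j)).eval u = 0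
      have hj := j.2
      have h4 : u ^ (D - (e : ℕ)) = u ^ (j : ℕ) * u ^ (D - (e : ℕ) - j) := by
        rw [← pow_add]
        congr 1
        omega
      rw [eval_mul, eval_C, eval_pow, eval_X, h4]
      ring
    · rw [Sum.elim_inr, Pi.zero_apply, Matrix.map_one _ (map_zero _) (map_one _)]
      rw [Pi.add_apply, Function.comp_def, Function.comp_def, Matrix.vecMul_one, Matrix.vecMul,
        dotProduct]
      simp only [Sum.elim_inl, Sum.elim_inr]
      have hk := k.2
      have h1 := hco k (by omega)
      have h3 : ∑ j, β j * (g j).coeff k = β k := by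
        rw [Finset.sum_eq_single k]
        · rw [hg, if_pos rfl, mul_one]
        · intro i _ hi
          rw [hg, if_neg hi, mul_zero]
        · intro h
          exact absurd (Finset.mem_univ _) h
      rw [h3] at h1
      have h4 : ∀ i, α i * (up.map (evalRingHom u)) i k = α i * (f i).coeff (D - k) := by
        intro i
        show α i * (C ((f i).coeff (D - k))).eval u = _
        rw [eval_C]
      rw [Finset.sum_congr rfl fun i _ => h4 i, h1]
      ring
  have hz := Matrix.eq_zero_of_vecMul_eq_zero hu1 hker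
  have hα0 : ∀ i, α i = 0 := fun i => by
    have := congrFun hz (Sum.inl i)
    simpa using this
  have hβ0 : ∀ j, β j = 0 := fun j => by
    have h1 := congrFun hz (Sum.inr j)
    simp only [Sum.elim_inr, Pi.zero_apply, neg_eq_zero, mul_eq_zero] at h1
    exact h1.resolve_right (pow_ne_zero _ hu0)
  constructor
  · apply taylor_injective c
    rw [hα, map_zero]
    exact Finset.sum_eq_zero fun i _ => by rw [hα0, zero_smul]
  · apply taylor_injective c'
    rw [hβ, map_zero]
    exact Finset.sum_eq_zero fun i _ => by rw [hβ0, zero_smul]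

end Pool.Agent.TH552.BB
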